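import Pool.Agent.Helper59.PWA.Steps

/-! # Sharp polynomial Wolff axioms for polynomial sublevel containers -/

set_option autoImplicit false

namespace Pool.Agent.Helper59.PWA

open MvPolynomial MeasureTheory Set
open scoped ENNReal

variable {m : ℕ}

/-- step 1: the value at infinity -/
theorem step1 (t : Fin (m + 1) → ℝ) (Ψ : Fin (m + 1) → MvPolynomial (Fin m) ℝ)
    (h0 : ∀ l P, 0 ≤ eval P (Ψ l)) (κ r R : ℝ) (hκ : 0 < κ) (hr : 0 ≤ r)
    (hκR : κ * (m * R ^ 2) ≤ 1 / 2) (hrR : r * (m * R) ≤ 1 / 4) (hrκ : m * r ^ 2 ≤ κ)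
    (B : Set (Fin m → ℝ)) (hBm : MeasurableSet B) (hB : ∀ α ∈ B, ∀ i, |α i| ≤ r) :
    volume B * volume {x : Fin m → ℝ | ∃ a : Fin m → ℝ, (∀ i, |a i| ≤ R) ∧
      ∀ l, eval (t l • x + a) (Ψ l) ≤ 1} ≤
      ∫⁻ x : Fin m → ℝ, ∫⁻ a : Fin m → ℝ, Ff Ψ κ t (m + 2) B (a, x) := by
  have hgm : Measurable (fun x : Fin m → ℝ => ∫⁻ a : Fin m → ℝ, Ff Ψ κ t (m + 2) B (a, x)) :=
    ((mFf Ψ κ t (m + 2) B hBm).comp measurable_swap).lintegral_prod_right'
  refine le_trans ?_ (mul_meas_ge_le_lintegral hgm (volume B))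
  refine mul_le_mul_right (measure_mono ?_) _
  rintro x ⟨a₀, ha₀, hx⟩
  rw [mem_ofPred_eq]
  set Ux : Set (Fin m → ℝ) := {a | (a, x) ∈ Uf Ψ κ t (m + 2) B} with hUx
  have hUxm : MeasurableSet Ux := measurable_prodMk_right (mUf Ψ κ t (m + 2) B hBm)
  have h1 : B ⊆ (fun a => Af Ψ κ t (a, x)) '' Ux := by
    intro α hα
    have hG0 : ∑ l, eval ((fun l => t l • x) l + a₀) (Ψ l) ≤ ((m + 1 : ℕ) : ℝ) := by
      calc ∑ l, eval ((fun l => t l • x) l + a₀) (Ψ l) ≤ ∑ l : Fin (m + 1), (1 : ℝ) :=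
            Finset.sum_le_sum fun l _ => hx l
        _ = ((m + 1 : ℕ) : ℝ) := by simp
    obtain ⟨a, ha, ha'⟩ := exists_crit Ψ h0 κ r R hκ hr hκR hrR hrκ (fun l => t l • x) a₀
      ha₀ hG0 α (hB α hα)
    refine ⟨a, ⟨?_, ?_⟩, ha⟩
    · have h2 : ((m + 1 : ℕ) : ℝ) + 1 = m + 2 := by push_cast; ring
      rw [h2] at ha'
      exact ha'
    · change Af Ψ κ t (a, x) ∈ B
      have h2 : Af Ψ κ t (a, x) = α := ha
      rw [h2]
      exact hα
  have h2 : volume B ≤ ∫⁻ a in Ux, ENNReal.ofReal |(mclm (MAf Ψ κ t (a, x))).det| := by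
    refine (measure_mono h1).trans ?_
    refine addHaar_image_le_lintegral_abs_det_fderiv volume hUxm
      (f' := fun a => mclm (MAf Ψ κ t (a, x))) ?_
    intro a _
    exact (Phi_hasFDerivAt Ψ κ (fun l => t l • x) (fun _ => 1) 0 1 a).hasFDerivWithinAt
  refine h2.trans (le_of_eq ?_)
  rw [← lintegral_indicator hUxm]
  refine lintegral_congr fun a => ?_
  by_cases ha : a ∈ Ux
  · rw [indicator_of_mem ha, mclm_det]
    have h3 : Ff Ψ κ t (m + 2) B (a, x) = ENNReal.ofReal |(MAf Ψ κ t (a, x)).det| :=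
      indicator_of_mem (show (a, x) ∈ Uf Ψ κ t (m + 2) B from ha) _
    exact h3.symm
  · rw [indicator_of_notMem ha]
    have h3 : Ff Ψ κ t (m + 2) B (a, x) = 0 :=
      indicator_of_notMem (show (a, x) ∉ Uf Ψ κ t (m + 2) B from ha) _
    exact h3.symm

/-- step 2 -/
theorem step2 (Ψ : Fin (m + 1) → MvPolynomial (Fin m) ℝ) (κ : ℝ) (t : Fin (m + 1) → ℝ)
    (ht : Function.Injective t) (c : ℝ) (B : Set (Fin m → ℝ)) (hB : MeasurableSet B) :
    ∫⁻ x : Fin m → ℝ, ∫⁻ a : Fin m → ℝ, Ff Ψ κ t c B (a, x) ≤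
      ∑ k, ENNReal.ofReal (wgt t k) *
        ∫⁻ x : Fin m → ℝ, ∫⁻ a : Fin m → ℝ, Fu Ψ κ t c B (t k) (a, x) := by
  calc ∫⁻ x : Fin m → ℝ, ∫⁻ a : Fin m → ℝ, Ff Ψ κ t c B (a, x) ≤
        ∫⁻ x : Fin m → ℝ, ∫⁻ a : Fin m → ℝ,
          ∑ k, ENNReal.ofReal (wgt t k) * Fu Ψ κ t c B (t k) (a, x) :=
        lintegral_mono fun x => lintegral_mono fun a => Ff_le Ψ κ t ht c B (a, x)
    _ = ∫⁻ x : Fin m → ℝ, ∑ k, ENNReal.ofReal (wgt t k) *
          ∫⁻ a : Fin m → ℝ, Fu Ψ κ t c B (t k) (a, x) := by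
        refine lintegral_congr fun x => ?_
        have hm : ∀ k : Fin (m + 1), Measurable fun a : Fin m → ℝ =>
            Fu Ψ κ t c B (t k) (a, x) :=
          fun k => (mFu Ψ κ t c B hB (t k)).comp measurable_prodMk_right
        rw [lintegral_finsetSum]
        · refine Finset.sum_congr rfl fun k _ => ?_
          rw [lintegral_const_mul _ (hm k)]
        · intro k _
          exact (hm k).const_mul _
    _ = ∑ k, ENNReal.ofReal (wgt t k) *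
          ∫⁻ x : Fin m → ℝ, ∫⁻ a : Fin m → ℝ, Fu Ψ κ t c B (t k) (a, x) := by
        have hgm : ∀ k : Fin (m + 1), Measurable (fun x : Fin m → ℝ =>
            ∫⁻ a : Fin m → ℝ, Fu Ψ κ t c B (t k) (a, x)) :=
          fun k => ((mFu Ψ κ t c B hB (t k)).comp measurable_swap).lintegral_prod_right'
        rw [lintegral_finsetSum]
        · refine Finset.sum_congr rfl fun k _ => ?_
          rw [lintegral_const_mul _ (hgm k)]
        · intro k _
          exact (hgm k).const_mul _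

/-- step 3 -/
theorem step3 (d : ℕ) (hd : 1 ≤ d) (Ψ : Fin (m + 1) → MvPolynomial (Fin m) ℝ)
    (hΨ : ∀ l, (Ψ l).totalDegree ≤ d + 1) (h0 : ∀ l P, 0 ≤ eval P (Ψ l)) (κ : ℝ)
    (t : Fin (m + 1) → ℝ) (c : ℝ) (B : Set (Fin m → ℝ)) (hB : MeasurableSet B)
    (k : Fin (m + 1)) :
    ∫⁻ x : Fin m → ℝ, ∫⁻ a : Fin m → ℝ, Fu Ψ κ t c B (t k) (a, x) ≤
      volume B * ((((m + 1) * d) ^ m : ℕ) * volume {P : Fin m → ℝ | eval P (Ψ k) ≤ c}) := by
  have h1 : ∀ x : Fin m → ℝ, ∫⁻ a : Fin m → ℝ, Fu Ψ κ t c B (t k) (a, x) =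
      ∫⁻ P : Fin m → ℝ, Fu Ψ κ t c B (t k) (P - t k • x, x) := by
    intro x
    exact (lintegral_sub_right_eq_self
      (fun a : Fin m → ℝ => Fu Ψ κ t c B (t k) (a, x)) (t k • x)).symm
  simp only [h1]
  have hsh : Measurable (fun z : (Fin m → ℝ) × (Fin m → ℝ) =>
      Fu Ψ κ t c B (t k) (z.2 - t k • z.1, z.1)) := by
    refine (mFu Ψ κ t c B hB (t k)).comp ?_
    fun_prop
  have hsw : ∫⁻ x : Fin m → ℝ, ∫⁻ P : Fin m → ℝ, Fu Ψ κ t c B (t k) (P - t k • x, x) =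
      ∫⁻ P : Fin m → ℝ, ∫⁻ x : Fin m → ℝ, Fu Ψ κ t c B (t k) (P - t k • x, x) :=
    lintegral_lintegral_swap
      (f := fun (x P : Fin m → ℝ) => Fu Ψ κ t c B (t k) (P - t k • x, x)) hsh.aemeasurable
  rw [hsw]
  have hEm : MeasurableSet {P : Fin m → ℝ | eval P (Ψ k) ≤ c} :=
    measurableSet_le (MvPolynomial.continuous_eval (Ψ k)).measurable measurable_const
  refine (lintegral_mono (Fu_int d hd Ψ hΨ h0 κ t c B hB k)).trans (le_of_eq ?_)
  rw [lintegral_indicator hEm, setLIntegral_const]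
  ring

/-- parameters -/
theorem params (m : ℕ) (R : ℝ) (hR : 0 ≤ R) : ∃ κ r : ℝ, 0 < κ ∧ 0 < r ∧
    κ * (m * R ^ 2) ≤ 1 / 2 ∧ r * (m * R) ≤ 1 / 4 ∧ m * r ^ 2 ≤ κ := by
  have hmR : 0 ≤ (m : ℝ) * R ^ 2 := by positivity
  have hmR' : 0 ≤ (m : ℝ) * R := by positivity
  have hm : (0 : ℝ) ≤ m := by positivity
  set κ : ℝ := 1 / (2 * (m * R ^ 2 + 1)) with hκd
  have hκ : 0 < κ := by positivity
  have hκ1 : κ ≤ 1 / 2 := by
    rw [hκd]
    apply one_div_le_one_div_of_le (by norm_num)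
    linarith
  set r : ℝ := κ / (4 * (m + 1) * (R + 1)) with hrd
  have hr : 0 < r := by positivity
  refine ⟨κ, r, hκ, hr, ?_, ?_, ?_⟩
  · rw [hκd, one_div_mul_eq_div, div_le_iff₀ (by positivity)]
    linarith
  · rw [hrd, div_mul_eq_mul_div, div_le_iff₀ (by positivity)]
    have h1 : κ * (m * R) ≤ 1 * ((m + 1) * (R + 1)) := by
      apply mul_le_mul (by linarith) _ (by positivity) (by norm_num)
      apply mul_le_mul (by linarith) (by linarith) hR (by positivity)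
    linarith
  · have hden : (m : ℝ) + 1 ≤ 4 * (m + 1) * (R + 1) := by
      have h2 : (m + 1 : ℝ) * 1 ≤ (m + 1) * (4 * (R + 1)) :=
        mul_le_mul_of_nonneg_left (by linarith) (by positivity)
      linarith
    have h1 : (m : ℝ) * r ≤ 1 := by
      rw [hrd, mul_div_assoc', div_le_iff₀ (by positivity)]
      have h2 : (m : ℝ) * κ ≤ m * 1 := mul_le_mul_of_nonneg_left (by linarith) hm
      linarith
    have h2 : r ≤ κ := by
      rw [hrd, div_le_iff₀ (by positivity)]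
      have h3 : κ * 1 ≤ κ * (4 * (m + 1) * (R + 1)) :=
        mul_le_mul_of_nonneg_left (by linarith) hκ.le
      linarith
    calc (m : ℝ) * r ^ 2 = (m * r) * r := by ring
      _ ≤ 1 * κ := mul_le_mul h1 h2 hr.le (by norm_num)
      _ = κ := one_mul _

/-- the bounded version -/
theorem wolff_aux (d : ℕ) (hd : 1 ≤ d) (t : Fin (m + 1) → ℝ) (ht : Function.Injective t)
    (Ψ : Fin (m + 1) → MvPolynomial (Fin m) ℝ) (hΨ : ∀ l, (Ψ l).totalDegree ≤ d + 1)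
    (h0 : ∀ l P, 0 ≤ eval P (Ψ l)) (R : ℝ) (hR : 0 ≤ R) :
    volume {x : Fin m → ℝ | ∃ a : Fin m → ℝ, (∀ i, |a i| ≤ R) ∧
      ∀ l, eval (t l • x + a) (Ψ l) ≤ 1} ≤
    ∑ k, ENNReal.ofReal (wgt t k) *
      ((((m + 1) * d) ^ m : ℕ) * volume {P : Fin m → ℝ | eval P (Ψ k) ≤ m + 2}) := by
  obtain ⟨κ, r, hκ, hr, hκR, hrR, hrκ⟩ := params m R hR
  set B : Set (Fin m → ℝ) := Set.pi univ fun _ => Ioo (-r) r with hB
  have hBm : MeasurableSet B := MeasurableSet.univ_pi fun _ => measurableSet_Ioo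
  have hBvol : volume B = ENNReal.ofReal (2 * r) ^ m := by
    rw [hB, Real.volume_pi_Ioo, Finset.prod_const, Finset.card_univ, Fintype.card_fin]
    congr 2
    ring
  have hB0 : volume B ≠ 0 := by
    rw [hBvol]
    exact pow_ne_zero _ (ENNReal.ofReal_pos.2 (by positivity)).ne'
  have hBt : volume B ≠ ∞ := by
    rw [hBvol]
    exact ENNReal.pow_ne_top ENNReal.ofReal_ne_top
  have hBr : ∀ α ∈ B, ∀ i, |α i| ≤ r := by
    intro α hα i
    have := hα i (mem_univ i)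
    exact (abs_lt.2 ⟨this.1, this.2⟩).le
  have h1 := step1 t Ψ h0 κ r R hκ hr.le hκR hrR hrκ B hBm hBr
  have h2 := step2 Ψ κ t ht (m + 2) B hBm
  have h5 : volume B * volume {x : Fin m → ℝ | ∃ a : Fin m → ℝ, (∀ i, |a i| ≤ R) ∧
      ∀ l, eval (t l • x + a) (Ψ l) ≤ 1} ≤ volume B * ∑ k, ENNReal.ofReal (wgt t k) *
      ((((m + 1) * d) ^ m : ℕ) * volume {P : Fin m → ℝ | eval P (Ψ k) ≤ m + 2}) := by
    refine h1.trans (h2.trans ?_)
    rw [Finset.mul_sum]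
    refine Finset.sum_le_sum fun k _ => ?_
    rw [mul_left_comm]
    exact mul_le_mul_right (step3 d hd Ψ hΨ h0 κ t (m + 2) B hBm k) _
  exact (ENNReal.mul_le_mul_iff_right hB0 hBt).1 h5

/-- **Sharp polynomial Wolff axioms for polynomial sublevel containers.** -/
theorem wolff (d : ℕ) (hd : 1 ≤ d) (t : Fin (m + 1) → ℝ) (ht : Function.Injective t)
    (Ψ : Fin (m + 1) → MvPolynomial (Fin m) ℝ) (hΨ : ∀ l, (Ψ l).totalDegree ≤ d + 1)
    (h0 : ∀ l P, 0 ≤ eval P (Ψ l)) :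
    volume {x : Fin m → ℝ | ∃ a : Fin m → ℝ, ∀ l, eval (a + t l • x) (Ψ l) ≤ 1} ≤
    ∑ k, ENNReal.ofReal (wgt t k) *
      ((((m + 1) * d) ^ m : ℕ) * volume {P : Fin m → ℝ | eval P (Ψ k) ≤ m + 2}) := by
  set D : ℕ → Set (Fin m → ℝ) := fun n => {x : Fin m → ℝ | ∃ a : Fin m → ℝ,
    (∀ i, |a i| ≤ n) ∧ ∀ l, eval (t l • x + a) (Ψ l) ≤ 1} with hD
  have hmono : Monotone D := by
    intro n n' hn x hx
    obtain ⟨a, ha, hx⟩ := hx
    exact ⟨a, fun i => (ha i).trans (by exact_mod_cast hn), hx⟩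
  have h1 : {x : Fin m → ℝ | ∃ a : Fin m → ℝ, ∀ l, eval (a + t l • x) (Ψ l) ≤ 1} ⊆
      ⋃ n, D n := by
    rintro x ⟨a, ha⟩
    obtain ⟨n, hn⟩ := exists_nat_ge (∑ i, |a i|)
    rw [mem_iUnion]
    refine ⟨n, a, fun i => ?_, fun l => ?_⟩
    · exact (Finset.single_le_sum (f := fun i => |a i|) (fun _ _ => abs_nonneg _)
        (Finset.mem_univ i)).trans hn
    · rw [add_comm]
      exact ha l
  refine (measure_mono h1).trans ?_
  rw [hmono.measure_iUnion]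
  refine iSup_le fun n => ?_
  exact wolff_aux d hd t ht Ψ hΨ h0 n (Nat.cast_nonneg n)

end Pool.Agent.Helper59.PWA
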