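import Mathlib

/-! # Multiplicity of polynomial maps: an elementary bound -/

set_option autoImplicit false

namespace Pool.Agent.Helper59.PWA

open MvPolynomial MeasureTheory

/-- the zero set of a nonzero polynomial is null -/
theorem null_zero (n : ℕ) (p : MvPolynomial (Fin n) ℝ) (hp : p ≠ 0) :
    volume {x : Fin n → ℝ | eval x p = 0} = 0 := by
  induction n with
  | zero =>
    have h1 : {x : Fin 0 → ℝ | eval x p = 0} = ∅ := by
      rw [Set.eq_empty_iff_forall_notMem]
      intro x hx
      apply hp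
      rw [Set.mem_ofPred_eq] at hx
      apply MvPolynomial.funext
      intro y
      rw [Subsingleton.elim y x, hx, map_zero]
    rw [h1, measure_empty]
  | succ n ih =>
    have hmeas : MeasurableSet {x : Fin (n + 1) → ℝ | eval x p = 0} := by
      have hc : Continuous (fun x : Fin (n + 1) → ℝ => eval x p) := MvPolynomial.continuous_eval p
      exact (isClosed_singleton.preimage hc).measurableSet
    have hq : finSuccEquiv ℝ n p ≠ 0 := by
      intro h
      apply hp
      exact (map_eq_zero_iff _ (finSuccEquiv ℝ n).injective).1 h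
    -- the leading coefficient
    set q := finSuccEquiv ℝ n p with hqdef
    have hlc : q.leadingCoeff ≠ 0 := Polynomial.leadingCoeff_ne_zero.2 hq
    have hN := ih q.leadingCoeff hlc
    have hev : ∀ (s : ℝ) (y : Fin n → ℝ), eval (Fin.cons s y : Fin (n + 1) → ℝ) p =
        Polynomial.eval s (q.map (eval y)) := by
      intro s y
      rw [hqdef, MvPolynomial.eval_eq_eval_mv_eval']
    have e := (MeasureTheory.volume_preserving_piFinSuccAbove (fun _ : Fin (n + 1) => ℝ) 0).symm
    have h2 : volume {x : Fin (n + 1) → ℝ | eval x p = 0} =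
        volume ((MeasurableEquiv.piFinSuccAbove (fun _ : Fin (n + 1) => ℝ) 0).symm ⁻¹'
          {x : Fin (n + 1) → ℝ | eval x p = 0}) :=
      (e.measure_preimage hmeas.nullMeasurableSet).symm
    rw [h2]
    have hms : MeasurableSet ((MeasurableEquiv.piFinSuccAbove
        (fun _ : Fin (n + 1) => ℝ) 0).symm ⁻¹' {x : Fin (n + 1) → ℝ | eval x p = 0}) :=
      (MeasurableEquiv.measurable _) hmeas
    have h3 : (volume : Measure (ℝ × (Fin n → ℝ))) = (volume : Measure ℝ).prod volume := rfl
    have h4 : volume ((MeasurableEquiv.piFinSuccAbove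
        (fun _ : Fin (n + 1) => ℝ) 0).symm ⁻¹' {x : Fin (n + 1) → ℝ | eval x p = 0}) =
        ((volume : Measure ℝ).prod (volume : Measure (Fin n → ℝ)))
        ((MeasurableEquiv.piFinSuccAbove
        (fun _ : Fin (n + 1) => ℝ) 0).symm ⁻¹' {x : Fin (n + 1) → ℝ | eval x p = 0}) := rfl
    rw [h4, Measure.prod_apply_symm hms, lintegral_eq_zero_iff]
    · have h5 : ∀ᵐ y : Fin n → ℝ, eval y q.leadingCoeff ≠ 0 := by
        rw [ae_iff]
        simpa using hN
      filter_upwards [h5] with y hy
      have h6 : (q.map (eval y)) ≠ 0 := by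
        intro h
        apply hy
        have := congrArg (fun r => Polynomial.coeff r q.natDegree) h
        simpa [Polynomial.coeff_map] using this
      have h7 : ((fun x => (x, y)) ⁻¹' ((MeasurableEquiv.piFinSuccAbove
          (fun _ : Fin (n + 1) => ℝ) 0).symm ⁻¹' {x : Fin (n + 1) → ℝ | eval x p = 0})) ⊆
          ((q.map (eval y)).roots.toFinset : Set ℝ) := by
        intro s hs
        rw [Set.mem_preimage, Set.mem_preimage, Set.mem_ofPred_eq] at hs
        have h8 : (MeasurableEquiv.piFinSuccAbove (fun _ : Fin (n + 1) => ℝ) 0).symm (s, y) =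
            (Fin.cons s y : Fin (n + 1) → ℝ) := by
          change (Fin.insertNthEquiv (fun _ : Fin (n + 1) => ℝ) 0) (s, y) = _
          rw [Fin.insertNthEquiv_zero]
          rfl
        rw [h8, hev] at hs
        simp only [Finset.mem_coe, Multiset.mem_toFinset]
        exact (Polynomial.mem_roots h6).2 hs
      have h9 : volume (((q.map (eval y)).roots.toFinset : Finset ℝ) : Set ℝ) = 0 :=
        (Finset.finite_toSet _).measure_zero _
      exact measure_mono_null h7 h9
    · exact measurable_measure_prodMk_right hms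

/-- algebraic dependence with an explicit bound for the degree -/
theorem relation {m d : ℕ} (hd : 1 ≤ d) (F : Fin m → MvPolynomial (Fin m) ℝ)
    (L : MvPolynomial (Fin m) ℝ) (hF : ∀ i, (F i).totalDegree ≤ d) (hL : L.totalDegree ≤ d) :
    ∃ R : Fin (((m + 1) * d) ^ m + 1) → MvPolynomial (Fin m) ℝ, (∃ j, R j ≠ 0) ∧
      ∀ x : Fin m → ℝ, ∑ j, eval (fun i => eval x (F i)) (R j) * (eval x L) ^ (j : ℕ) = 0 := by
  classical
  set N := ((m + 1) * d) ^ m with hN
  set M := (m + 1) * N * d with hM
  -- the products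
  set Q : (Fin m → Fin (N + 1)) × Fin (N + 1) → MvPolynomial (Fin m) ℝ :=
    fun b => (∏ i, F i ^ (b.1 i : ℕ)) * L ^ (b.2 : ℕ) with hQ
  have hQd : ∀ b, (Q b).totalDegree ≤ M := by
    intro b
    have h1 : (∏ i, F i ^ (b.1 i : ℕ)).totalDegree ≤ ∑ i : Fin m, N * d := by
      refine (totalDegree_finsetProd _ _).trans (Finset.sum_le_sum fun i _ => ?_)
      refine (totalDegree_pow _ _).trans ?_
      exact Nat.mul_le_mul (Nat.lt_succ_iff.1 (b.1 i).2) (hF i)
    have h2 : (L ^ (b.2 : ℕ)).totalDegree ≤ N * d := by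
      refine (totalDegree_pow _ _).trans ?_
      exact Nat.mul_le_mul (Nat.lt_succ_iff.1 b.2.2) hL
    refine (totalDegree_mul _ _).trans ((add_le_add h1 h2).trans ?_)
    rw [Finset.sum_const, Finset.card_univ, Fintype.card_fin, smul_eq_mul, hM]
    apply le_of_eq
    ring
  -- the evaluation map
  set ev : (((Fin m → Fin (N + 1)) × Fin (N + 1)) → ℝ) →ₗ[ℝ] ((Fin m → Fin (M + 1)) → ℝ) :=
    { toFun := fun c g => ∑ b, c b * eval (fun i => ((g i : ℕ) : ℝ)) (Q b)
      map_add' := by
        intro c c'
        funext g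
        simp only [Pi.add_apply, add_mul, Finset.sum_add_distrib]
      map_smul' := by
        intro r c
        funext g
        simp only [Pi.smul_apply, smul_eq_mul, RingHom.id_apply, Finset.mul_sum, mul_assoc] }
    with hev
  have hcard : Module.finrank ℝ ((Fin m → Fin (M + 1)) → ℝ) <
      Module.finrank ℝ (((Fin m → Fin (N + 1)) × Fin (N + 1)) → ℝ) := by
    rw [Module.finrank_fintype_fun_eq_card, Module.finrank_fintype_fun_eq_card]
    rw [Fintype.card_fun, Fintype.card_prod, Fintype.card_fun, Fintype.card_fin, Fintype.card_fin,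
      Fintype.card_fin]
    have h1 : M + 1 ≤ ((m + 1) * d) * (N + 1) := by
      have h2 : 1 ≤ (m + 1) * d := Nat.mul_pos (Nat.succ_pos m) hd
      calc M + 1 ≤ M + (m + 1) * d := by omega
        _ = ((m + 1) * d) * (N + 1) := by rw [hM]; ring
    calc (M + 1) ^ m ≤ (((m + 1) * d) * (N + 1)) ^ m := Nat.pow_le_pow_left h1 m
      _ = N * (N + 1) ^ m := by rw [mul_pow, ← hN]
      _ < (N + 1) ^ m * (N + 1) := by
        rw [mul_comm]
        exact Nat.mul_lt_mul_of_pos_left (Nat.lt_succ_self N) (pow_pos (Nat.succ_pos N) m)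
  have hker := LinearMap.ker_ne_bot_of_finrank_lt (f := ev) hcard
  obtain ⟨c, hc, hc0⟩ := (Submodule.ne_bot_iff _).1 hker
  rw [LinearMap.mem_ker] at hc
  set P : MvPolynomial (Fin m) ℝ := ∑ b, C (c b) * Q b with hP
  have hPz : P = 0 := by
    refine MvPolynomial.eq_zero_of_eval_zero_at_prod_finset P
      (fun _ => (Finset.range (M + 1)).image (fun k : ℕ => (k : ℝ))) ?_ ?_
    · intro i
      rw [Finset.card_image_of_injective _ Nat.cast_injective, Finset.card_range]
      refine Nat.lt_succ_iff.2 ((degreeOf_le_totalDegree P i).trans ?_)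
      rw [hP]
      refine totalDegree_finsetSum_le fun b _ => ?_
      refine (totalDegree_mul _ _).trans ?_
      rw [totalDegree_C, zero_add]
      exact hQd b
    · intro x hx
      have h1 : ∀ i, ∃ k : Fin (M + 1), ((k : ℕ) : ℝ) = x i := by
        intro i
        obtain ⟨k, hk, hk'⟩ := Finset.mem_image.1 (hx i)
        exact ⟨⟨k, Finset.mem_range.1 hk⟩, hk'⟩
      choose g hg using h1
      have h2 := congrFun hc g
      have h3 : (fun i => ((g i : ℕ) : ℝ)) = x := funext hg
      have h4 : ev c g = ∑ b, c b * eval (fun i => ((g i : ℕ) : ℝ)) (Q b) := rfl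
      rw [h4, h3] at h2
      rw [hP, map_sum]
      simp only [map_mul, eval_C]
      exact h2
  refine ⟨fun j => ∑ β : Fin m → Fin (N + 1),
    monomial (Finsupp.equivFunOnFinite.symm (fun i => (β i : ℕ))) (c (β, j)), ?_, ?_⟩
  · have h1 : ∃ b, c b ≠ 0 := by
      by_contra h
      push Not at h
      exact hc0 (funext h)
    obtain ⟨⟨β, j⟩, hb⟩ := h1
    refine ⟨j, fun h => hb ?_⟩
    have h2 := congrArg (coeff (Finsupp.equivFunOnFinite.symm (fun i => (β i : ℕ)))) h
    rw [coeff_sum, coeff_zero, Finset.sum_eq_single β] at h2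
    · rw [coeff_monomial, if_pos rfl] at h2
      exact h2
    · intro β' _ hne
      rw [coeff_monomial, if_neg]
      intro he
      apply hne
      have h3 := Finsupp.equivFunOnFinite.symm.injective he
      funext i
      exact Fin.ext (congrFun h3 i)
    · intro h
      exact absurd (Finset.mem_univ β) h
  · intro x
    have h1 : eval x P = 0 := by rw [hPz, map_zero]
    rw [hP, map_sum, Fintype.sum_prod_type_right] at h1
    rw [← h1]
    refine Finset.sum_congr rfl fun j _ => ?_
    rw [map_sum, Finset.sum_mul]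
    refine Finset.sum_congr rfl fun β _ => ?_
    rw [eval_monomial, Finsupp.prod_fintype _ _ (fun i => pow_zero _), map_mul, eval_C, hQ, map_mul,
      map_prod, map_pow, mul_assoc]
    congr 2
    refine Finset.prod_congr rfl fun i _ => ?_
    rw [map_pow]
    rfl

/-- a moment functional separating a finite set of points -/
theorem exists_sep {m : ℕ} (S : Finset (Fin m → ℝ)) :
    ∃ θ : ℕ, ∀ x ∈ S, ∀ y ∈ S, ∑ i : Fin m, (θ : ℝ) ^ (i : ℕ) * x i =
      ∑ i : Fin m, (θ : ℝ) ^ (i : ℕ) * y i → x = y := by
  classical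
  set q : (Fin m → ℝ) × (Fin m → ℝ) → Polynomial ℝ :=
    fun b => ∑ i : Fin m, Polynomial.monomial (i : ℕ) (b.1 i - b.2 i) with hq
  set Bad : Finset ℝ := (S ×ˢ S).biUnion (fun b => (q b).roots.toFinset) with hBad
  obtain ⟨θ, hθ⟩ := Infinite.exists_notMem_finset
    (Bad.preimage (fun k : ℕ => (k : ℝ)) (Nat.cast_injective.injOn))
  refine ⟨θ, fun x hx y hy h => ?_⟩
  by_contra hne
  apply hθ
  rw [Finset.mem_preimage, hBad, Finset.mem_biUnion]
  refine ⟨(x, y), Finset.mk_mem_product hx hy, ?_⟩
  rw [Multiset.mem_toFinset, Polynomial.mem_roots']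
  constructor
  · intro h0
    apply hne
    funext i
    have h1 := congrArg (fun r => Polynomial.coeff r (i : ℕ)) h0
    simp only [hq, Polynomial.finsetSum_coeff, Polynomial.coeff_monomial,
      Polynomial.coeff_zero] at h1
    rw [Finset.sum_eq_single i] at h1
    · rw [if_pos rfl] at h1
      exact sub_eq_zero.1 h1
    · intro j _ hj
      rw [if_neg]
      intro hji
      exact hj (Fin.ext hji)
    · intro hi
      exact absurd (Finset.mem_univ i) hi
  · rw [Polynomial.IsRoot.def, hq, Polynomial.eval_finsetSum]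
    simp only [Polynomial.eval_monomial]
    rw [← sub_eq_zero, ← Finset.sum_sub_distrib] at h
    rw [← h]
    refine Finset.sum_congr rfl fun i _ => ?_
    ring

/-- **Multiplicity of polynomial maps.** -/
theorem multiplicity {m d : ℕ} (hd : 1 ≤ d) (F : Fin m → MvPolynomial (Fin m) ℝ)
    (hF : ∀ i, (F i).totalDegree ≤ d) :
    ∀ᵐ α : Fin m → ℝ, ∀ S : Finset (Fin m → ℝ), (∀ x ∈ S, ∀ i, eval x (F i) = α i) →
      S.card ≤ ((m + 1) * d) ^ m := by
  classical
  set L : ℕ → MvPolynomial (Fin m) ℝ := fun θ => ∑ i : Fin m, C ((θ : ℝ) ^ (i : ℕ)) * X i with hLdef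
  have hLd : ∀ θ, (L θ).totalDegree ≤ d := by
    intro θ
    refine totalDegree_finsetSum_le fun i _ => ?_
    refine (totalDegree_mul _ _).trans ?_
    rw [totalDegree_C, zero_add, totalDegree_X]
    exact hd
  have hLe : ∀ θ x, eval x (L θ) = ∑ i : Fin m, (θ : ℝ) ^ (i : ℕ) * x i := by
    intro θ x
    rw [hLdef, map_sum]
    refine Finset.sum_congr rfl fun i _ => ?_
    rw [map_mul, eval_C, eval_X]
  choose R hR using fun θ => relation hd F (L θ) hF (hLd θ)
  choose j hj using fun θ => (hR θ).1
  have h1 : ∀ᵐ α : Fin m → ℝ, ∀ θ, eval α (R θ (j θ)) ≠ 0 := by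
    rw [ae_all_iff]
    intro θ
    rw [ae_iff]
    simpa using null_zero m (R θ (j θ)) (hj θ)
  filter_upwards [h1] with α hα S hS
  obtain ⟨θ, hθ⟩ := exists_sep S
  set r : Polynomial ℝ := ∑ k : Fin (((m + 1) * d) ^ m + 1),
    Polynomial.monomial (k : ℕ) (eval α (R θ k)) with hr
  have hr0 : r ≠ 0 := by
    intro h0
    apply hα θ
    have h1 := congrArg (fun r => Polynomial.coeff r (j θ : ℕ)) h0
    simp only [hr, Polynomial.finsetSum_coeff, Polynomial.coeff_monomial,
      Polynomial.coeff_zero] at h1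
    rw [Finset.sum_eq_single (j θ)] at h1
    · rw [if_pos rfl] at h1
      exact h1
    · intro k _ hk
      rw [if_neg]
      intro hki
      exact hk (Fin.ext hki)
    · intro hi
      exact absurd (Finset.mem_univ _) hi
  have hrd : r.natDegree ≤ ((m + 1) * d) ^ m := by
    refine Polynomial.natDegree_sum_le_of_forall_le _ _ fun k _ => ?_
    refine (Polynomial.natDegree_monomial_le _).trans ?_
    exact Nat.lt_succ_iff.1 k.2
  have h2 : S.image (fun x => eval x (L θ)) ⊆ r.roots.toFinset := by
    intro s hs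
    obtain ⟨x, hx, rfl⟩ := Finset.mem_image.1 hs
    rw [Multiset.mem_toFinset, Polynomial.mem_roots']
    refine ⟨hr0, ?_⟩
    rw [Polynomial.IsRoot.def, hr, Polynomial.eval_finsetSum]
    simp only [Polynomial.eval_monomial]
    have h3 := (hR θ).2 x
    have h4 : (fun i => eval x (F i)) = α := funext (hS x hx)
    rw [h4] at h3
    exact h3
  have h3 : (S.image (fun x => eval x (L θ))).card = S.card := by
    apply Finset.card_image_of_injOn
    intro x hx y hy hxy
    apply hθ x hx y hy
    rw [← hLe, ← hLe]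
    exact hxy
  calc S.card = (S.image (fun x => eval x (L θ))).card := h3.symm
    _ ≤ r.roots.toFinset.card := Finset.card_le_card h2
    _ ≤ Multiset.card r.roots := Multiset.toFinset_card_le _
    _ ≤ r.natDegree := Polynomial.card_roots' r
    _ ≤ _ := hrd

end Pool.Agent.Helper59.PWA
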