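import Mathlib

/-! # Area inequality for maps of bounded multiplicity -/

set_option autoImplicit false

namespace Pool.Agent.Helper59.PWA

open MeasureTheory Set
open scoped NNReal ENNReal

theorem exists_rad {m : ℕ} (A : (Fin m → ℝ) →L[ℝ] (Fin m → ℝ)) :
    ∃ r : ℝ≥0, r ≠ 0 ∧ ∀ h : A.det ≠ 0, Subsingleton (Fin m → ℝ) ∨
      r < ‖((A.toContinuousLinearEquivOfDetNeZero h).symm :
        (Fin m → ℝ) →L[ℝ] (Fin m → ℝ))‖₊⁻¹ := by
  classical
  by_cases h : A.det ≠ 0
  · by_cases h0 : ‖((A.toContinuousLinearEquivOfDetNeZero h).symm :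
        (Fin m → ℝ) →L[ℝ] (Fin m → ℝ))‖₊ = 0
    · refine ⟨1, one_ne_zero, fun _ => Or.inl ?_⟩
      refine ⟨fun x y => ?_⟩
      have h1 : ((A.toContinuousLinearEquivOfDetNeZero h).symm :
        (Fin m → ℝ) →L[ℝ] (Fin m → ℝ)) = 0 := nnnorm_eq_zero.1 h0
      have h2 : ∀ z : Fin m → ℝ, (A.toContinuousLinearEquivOfDetNeZero h).symm z = 0 := fun z =>
        congrFun (congrArg DFunLike.coe h1) z
      apply (A.toContinuousLinearEquivOfDetNeZero h).symm.injective
      rw [h2, h2]
    · refine ⟨‖((A.toContinuousLinearEquivOfDetNeZero h).symm :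
        (Fin m → ℝ) →L[ℝ] (Fin m → ℝ))‖₊⁻¹ / 2, ?_, fun h' => Or.inr ?_⟩
      · exact div_ne_zero (inv_ne_zero h0) two_ne_zero
      · exact NNReal.half_lt_self (inv_ne_zero h0)
  · exact ⟨1, one_ne_zero, fun h' => absurd h' h⟩

theorem injOn_of_approx {m : ℕ} (f : (Fin m → ℝ) → (Fin m → ℝ))
    (A : (Fin m → ℝ) →L[ℝ] (Fin m → ℝ)) (hdet : A.det ≠ 0) (s : Set (Fin m → ℝ)) (c : ℝ≥0)
    (h : ApproximatesLinearOn f A s c)
    (hc : Subsingleton (Fin m → ℝ) ∨ c < ‖((A.toContinuousLinearEquivOfDetNeZero hdet).symm :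
        (Fin m → ℝ) →L[ℝ] (Fin m → ℝ))‖₊⁻¹) : InjOn f s := by
  have h2 : ApproximatesLinearOn f ((A.toContinuousLinearEquivOfDetNeZero hdet :
      (Fin m → ℝ) ≃L[ℝ] (Fin m → ℝ)) : (Fin m → ℝ) →L[ℝ] (Fin m → ℝ)) s c := by
    rw [ContinuousLinearMap.coe_toContinuousLinearEquivOfDetNeZero]
    exact h
  exact h2.injOn hc

/-- the area inequality with multiplicity -/
theorem area_mult {m : ℕ} (f : (Fin m → ℝ) → (Fin m → ℝ))
    (f' : (Fin m → ℝ) → (Fin m → ℝ) →L[ℝ] (Fin m → ℝ))
    (hf : ∀ x, HasFDerivAt f (f' x) x) (hc : Measurable fun x => (f' x).det) (N : ℕ)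
    (hN : ∀ᵐ α : Fin m → ℝ, ∀ S : Finset (Fin m → ℝ), (∀ x ∈ S, f x = α) → S.card ≤ N)
    (U : Set (Fin m → ℝ)) (hU : MeasurableSet U) (B : Set (Fin m → ℝ)) (hB : MeasurableSet B)
    (hUB : ∀ x ∈ U, f x ∈ B) :
    ∫⁻ x in U, ENNReal.ofReal |(f' x).det| ≤ N * volume B := by
  classical
  set s : Set (Fin m → ℝ) := U ∩ {x | (f' x).det ≠ 0} with hs
  have hsm : MeasurableSet s := by
    refine hU.inter ?_
    exact (hc (measurableSet_singleton (0 : ℝ))).compl
  have h1 : ∫⁻ x in U, ENNReal.ofReal |(f' x).det| = ∫⁻ x in s, ENNReal.ofReal |(f' x).det| := by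
    rw [← lintegral_indicator hU, ← lintegral_indicator hsm]
    refine lintegral_congr fun x => ?_
    by_cases hx : x ∈ U
    · by_cases hx' : (f' x).det = 0
      · rw [indicator_of_mem hx, indicator_of_notMem (fun h => h.2 hx'), hx', abs_zero,
          ENNReal.ofReal_zero]
      · rw [indicator_of_mem hx, indicator_of_mem (show x ∈ s from ⟨hx, hx'⟩)]
    · rw [indicator_of_notMem hx, indicator_of_notMem (fun h => hx h.1)]
  rw [h1]
  rcases s.eq_empty_or_nonempty with hse | hsne
  · rw [hse, Measure.restrict_empty, lintegral_zero_measure]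
    exact zero_le
  choose r hr0 hr using fun A : (Fin m → ℝ) →L[ℝ] (Fin m → ℝ) => exists_rad A
  obtain ⟨t, A, htd, htm, hst, happ, hA⟩ :=
    exists_partition_approximatesLinearOn_of_hasFDerivWithinAt f s f'
      (fun x _ => (hf x).hasFDerivWithinAt) r hr0
  have hinj : ∀ n, InjOn f (s ∩ t n) := by
    intro n
    obtain ⟨y, hy, hAy⟩ := hA hsne n
    have hdet : (A n).det ≠ 0 := by
      rw [hAy]
      exact hy.2
    exact injOn_of_approx f (A n) hdet _ _ (happ n) (hr (A n) hdet)
  have hsU : s = ⋃ n, s ∩ t n := by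
    rw [← inter_iUnion]
    exact (inter_eq_left.2 hst).symm
  have hdisj : Pairwise (Function.onFun Disjoint fun n => s ∩ t n) := by
    intro i j hij
    exact (htd hij).mono inter_subset_right inter_subset_right
  have h2 : ∫⁻ x in s, ENNReal.ofReal |(f' x).det| =
      ∑' n, ∫⁻ x in s ∩ t n, ENNReal.ofReal |(f' x).det| := by
    conv_lhs => rw [hsU]
    rw [lintegral_iUnion (fun n => hsm.inter (htm n)) hdisj]
  have h3 : ∀ n, ∫⁻ x in s ∩ t n, ENNReal.ofReal |(f' x).det| =
      ∫⁻ α, (f '' (s ∩ t n)).indicator (fun _ => (1 : ℝ≥0∞)) α := by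
    intro n
    rw [lintegral_abs_det_fderiv_eq_addHaar_image volume (hsm.inter (htm n))
      (fun x _ => (hf x).hasFDerivWithinAt) (hinj n)]
    rw [lintegral_indicator (measurable_image_of_fderivWithin (hsm.inter (htm n))
      (fun x _ => (hf x).hasFDerivWithinAt) (hinj n))]
    simp
  rw [h2]
  simp_rw [h3]
  rw [← lintegral_tsum]
  · have h4 : (N : ℝ≥0∞) * volume B = ∫⁻ α, B.indicator (fun _ => (N : ℝ≥0∞)) α := by
      rw [lintegral_indicator hB, lintegral_const, Measure.restrict_apply MeasurableSet.univ,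
        univ_inter]
    rw [h4]
    refine lintegral_mono_ae ?_
    filter_upwards [hN] with α hα
    by_cases hαB : α ∈ B
    · rw [indicator_of_mem hαB, ENNReal.tsum_eq_iSup_sum]
      refine iSup_le fun T => ?_
      -- the indices with `α` in the image
      set T' := T.filter (fun n => α ∈ f '' (s ∩ t n)) with hT'
      have h5 : ∑ n ∈ T, (f '' (s ∩ t n)).indicator (fun _ => (1 : ℝ≥0∞)) α = T'.card := by
        rw [hT', Finset.card_filter, Nat.cast_sum]
        refine Finset.sum_congr rfl fun n _ => ?_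
        by_cases hn : α ∈ f '' (s ∩ t n)
        · rw [indicator_of_mem hn, if_pos hn, Nat.cast_one]
        · rw [indicator_of_notMem hn, if_neg hn, Nat.cast_zero]
      rw [h5]
      have h6 : ∀ n : ℕ, ∃ x, n ∈ T' → x ∈ s ∩ t n ∧ f x = α := by
        intro n
        by_cases hn : n ∈ T'
        · obtain ⟨x, hx, hx'⟩ := (Finset.mem_filter.1 hn).2
          exact ⟨x, fun _ => ⟨hx, hx'⟩⟩
        · exact ⟨0, fun h => absurd h hn⟩
      choose g hg using h6
      have h7 : (T'.image g).card = T'.card := by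
        apply Finset.card_image_of_injOn
        intro i hi j hj hij
        by_contra hne
        have h8 := (hg i hi).1.2
        have h9 := (hg j hj).1.2
        rw [hij] at h8
        exact Set.disjoint_left.1 (htd hne) h8 h9
      have h8 : (T'.image g).card ≤ N := by
        apply hα
        intro x hx
        obtain ⟨n, hn, rfl⟩ := Finset.mem_image.1 hx
        exact (hg n hn).2
      rw [h7] at h8
      exact_mod_cast h8
    · have h5 : ∀ n, (f '' (s ∩ t n)).indicator (fun _ => (1 : ℝ≥0∞)) α = 0 := by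
        intro n
        apply indicator_of_notMem
        rintro ⟨x, hx, rfl⟩
        exact hαB (hUB x hx.1.1)
      simp only [h5, tsum_zero]
      exact zero_le
  · intro n
    refine Measurable.aemeasurable ?_
    exact measurable_const.indicator (measurable_image_of_fderivWithin (hsm.inter (htm n))
      (fun x _ => (hf x).hasFDerivWithinAt) (hinj n))

end Pool.Agent.Helper59.PWA
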