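import Pool.Agent.Helper59.PWA.Poly

/-! # Critical points and the Lagrange inequality for determinants -/

set_option autoImplicit false

namespace Pool.Agent.Helper59.PWA

open MvPolynomial MeasureTheory Filter Topology

variable {m : ℕ}

/-- the top coefficient of `det (T A + B)` is controlled by `m + 1` values -/
theorem det_lagrange (t : Fin (m + 1) → ℝ) (ht : Function.Injective t)
    (A B : Matrix (Fin m) (Fin m) ℝ) :
    |A.det| ≤ ∑ k, |∏ j ∈ Finset.univ.erase k, (t k - t j)|⁻¹ * |(t k • A + B).det| := by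
  classical
  set P : Polynomial ℝ := ((Polynomial.X : Polynomial ℝ) • A.map Polynomial.C +
    B.map Polynomial.C).det with hP
  have h1 : P.coeff m = A.det := by
    have := Polynomial.coeff_det_X_add_C_card A B
    rw [Fintype.card_fin] at this
    exact this
  have h2 : P.natDegree ≤ m := by
    have := Polynomial.natDegree_det_X_add_C_le A B
    rwa [Fintype.card_fin] at this
  have h3 : P.degree < (Finset.univ : Finset (Fin (m + 1))).card := by
    rw [Finset.card_univ, Fintype.card_fin]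
    refine lt_of_le_of_lt Polynomial.degree_le_natDegree ?_
    exact_mod_cast Nat.lt_succ_of_le h2
  have h4 := Lagrange.coeff_eq_sum (s := (Finset.univ : Finset (Fin (m + 1)))) (v := t)
    (ht.injOn) h3
  rw [Finset.card_univ, Fintype.card_fin, Nat.add_sub_cancel, h1] at h4
  rw [h4]
  refine (Finset.abs_sum_le_sum_abs _ _).trans (Finset.sum_le_sum fun k _ => ?_)
  have h5 : P.eval (t k) = (t k • A + B).det := by
    rw [hP, ← Polynomial.coe_evalRingHom, RingHom.map_det]
    congr 1
    ext i j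
    simp
    ring
  rw [h5, abs_div, div_eq_inv_mul]

/-- existence of critical points with prescribed gradient -/
theorem exists_crit {n : ℕ} (Ψ : Fin n → MvPolynomial (Fin m) ℝ)
    (h0 : ∀ l P, 0 ≤ eval P (Ψ l)) (κ r R : ℝ) (hκ : 0 < κ) (hr : 0 ≤ r)
    (hκR : κ * (m * R ^ 2) ≤ 1 / 2) (hrR : r * (m * R) ≤ 1 / 4) (hrκ : m * r ^ 2 ≤ κ)
    (b : Fin n → Fin m → ℝ) (a₀ : Fin m → ℝ) (ha₀ : ∀ i, |a₀ i| ≤ R)
    (hG : ∑ l, eval (b l + a₀) (Ψ l) ≤ n) (α : Fin m → ℝ) (hα : ∀ i, |α i| ≤ r) :
    ∃ a : Fin m → ℝ, Phi Ψ κ b (fun _ => 1) 0 1 a = α ∧ ∑ l, eval (b l + a) (Ψ l) ≤ n + 1 := by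
  classical
  set q : MvPolynomial (Fin m) ℝ := ∑ j, (C (κ / 2) * X j ^ 2 - C (α j) * X j) with hq
  have hqe : ∀ a, eval a q = ∑ j, (κ / 2 * a j ^ 2 - α j * a j) := by
    intro a
    rw [hq, map_sum]
    refine Finset.sum_congr rfl fun j _ => ?_
    simp
  set H : (Fin m → ℝ) → ℝ := fun a => ∑ l, eval (b l + (1 : ℝ) • a) (Ψ l) + eval a q with hH
  have hcont : Continuous H := by
    rw [hH]
    refine Continuous.add ?_ (MvPolynomial.continuous_eval q)
    refine continuous_finsetSum _ fun l _ => ?_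
    exact (MvPolynomial.continuous_eval (Ψ l)).comp (by fun_prop)
  have hlow : ∀ a : Fin m → ℝ, -(1 / 2) ≤ eval a q := by
    intro a
    rw [hqe]
    have h1 : ∀ j : Fin m, -(r ^ 2 / (2 * κ)) ≤ κ / 2 * a j ^ 2 - α j * a j := by
      intro j
      have h2 : (α j) ^ 2 ≤ r ^ 2 := by
        rw [← sq_abs (α j)]
        exact pow_le_pow_left₀ (abs_nonneg _) (hα j) 2
      have h3 : κ / 2 * a j ^ 2 - α j * a j + (α j) ^ 2 / (2 * κ) =
          (κ * a j - α j) ^ 2 / (2 * κ) := by
        field_simp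
        ring
      have h4 : 0 ≤ (κ * a j - α j) ^ 2 / (2 * κ) := by positivity
      have h5 : (α j) ^ 2 / (2 * κ) ≤ r ^ 2 / (2 * κ) := by
        apply div_le_div_of_nonneg_right h2 (by positivity)
      linarith
    have h6 : ∑ j : Fin m, -(r ^ 2 / (2 * κ)) ≤ ∑ j, (κ / 2 * a j ^ 2 - α j * a j) :=
      Finset.sum_le_sum fun j _ => h1 j
    rw [Finset.sum_const, Finset.card_univ, Fintype.card_fin, nsmul_eq_mul] at h6
    refine le_trans ?_ h6
    have h7 : (m : ℝ) * (r ^ 2 / (2 * κ)) ≤ 1 / 2 := by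
      rw [← mul_div_assoc, div_le_iff₀ (by positivity)]
      linarith
    linarith
  have hgrow : ∀ a : Fin m → ℝ, κ / 4 * ‖a‖ ^ 2 - 1 ≤ H a := by
    intro a
    have h1 : 0 ≤ ∑ l, eval (b l + (1 : ℝ) • a) (Ψ l) := Finset.sum_nonneg fun l _ => h0 l _
    have h2 : κ / 4 * ‖a‖ ^ 2 - 1 ≤ eval a q := by
      rw [hqe]
      have h3 : ∀ j : Fin m, κ / 4 * a j ^ 2 - r ^ 2 / κ ≤ κ / 2 * a j ^ 2 - α j * a j := by
        intro j
        have h2 : (α j) ^ 2 ≤ r ^ 2 := by
          rw [← sq_abs (α j)]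
          exact pow_le_pow_left₀ (abs_nonneg _) (hα j) 2
        have h3 : κ / 4 * a j ^ 2 - α j * a j + (α j) ^ 2 / κ =
            (κ * a j - 2 * α j) ^ 2 / (4 * κ) := by
          field_simp
          ring
        have h4 : 0 ≤ (κ * a j - 2 * α j) ^ 2 / (4 * κ) := by positivity
        have h5 : (α j) ^ 2 / κ ≤ r ^ 2 / κ := by
          apply div_le_div_of_nonneg_right h2 (by positivity)
        linarith
      have h4 : ∑ j : Fin m, (κ / 4 * a j ^ 2 - r ^ 2 / κ) ≤
          ∑ j, (κ / 2 * a j ^ 2 - α j * a j) := Finset.sum_le_sum fun j _ => h3 j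
      rw [Finset.sum_sub_distrib, Finset.sum_const, Finset.card_univ, Fintype.card_fin,
        nsmul_eq_mul, ← Finset.mul_sum] at h4
      have h5 : (m : ℝ) * (r ^ 2 / κ) ≤ 1 := by
        rw [← mul_div_assoc, div_le_iff₀ (by positivity)]
        linarith
      have h6 : ‖a‖ ^ 2 ≤ ∑ j, a j ^ 2 := by
        rcases isEmpty_or_nonempty (Fin m) with hE | hE
        · have : a = 0 := Subsingleton.elim _ _
          rw [this, norm_zero]
          simp
        · obtain ⟨i, hi⟩ := Finite.exists_max (fun i => ‖a i‖)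
          have h7 : ‖a‖ ≤ ‖a i‖ := (pi_norm_le_iff_of_nonneg (norm_nonneg _)).2 hi
          calc ‖a‖ ^ 2 ≤ ‖a i‖ ^ 2 := pow_le_pow_left₀ (norm_nonneg _) h7 2
            _ = a i ^ 2 := by rw [Real.norm_eq_abs, sq_abs]
            _ ≤ ∑ j, a j ^ 2 := Finset.single_le_sum (f := fun j => a j ^ 2)
                (fun j _ => sq_nonneg _) (Finset.mem_univ i)
      have h8 : κ / 4 * ‖a‖ ^ 2 ≤ κ / 4 * ∑ j, a j ^ 2 :=
        mul_le_mul_of_nonneg_left h6 (by positivity)
      linarith
    rw [hH]
    dsimp only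
    linarith
  have hlim : Tendsto H (cocompact _) atTop := by
    refine tendsto_atTop_mono hgrow ?_
    have h1 : Tendsto (fun a : Fin m → ℝ => ‖a‖) (cocompact _) atTop :=
      tendsto_norm_cocompact_atTop
    have h2 : Tendsto (fun s : ℝ => κ / 4 * s ^ 2 - 1) atTop atTop := by
      apply tendsto_atTop_add_const_right
      exact Tendsto.const_mul_atTop (by positivity) (tendsto_pow_atTop two_ne_zero)
    exact h2.comp h1
  obtain ⟨a, ha⟩ := hcont.exists_forall_le hlim
  refine ⟨a, ?_, ?_⟩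
  · have hmin : IsLocalMin H a := Filter.Eventually.of_forall ha
    have hder : HasFDerivAt H (∑ l, polyD (Ψ l) (b l + (1 : ℝ) • a) + polyD q a) a := by
      refine HasFDerivAt.add ?_ (poly_hasFDerivAt q a)
      refine HasFDerivAt.fun_sum fun l _ => ?_
      have h1 : HasFDerivAt (fun x : Fin m → ℝ => b l + (1 : ℝ) • x)
          ((1 : ℝ) • ContinuousLinearMap.id ℝ _) a :=
        ((hasFDerivAt_id a).const_smul (1 : ℝ)).const_add (b l)
      have h3 : ((1 : ℝ) • ContinuousLinearMap.id ℝ (Fin m → ℝ)) =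
        ContinuousLinearMap.id ℝ _ := one_smul _ _
      rw [h3] at h1
      have h2 := (poly_hasFDerivAt (Ψ l) (b l + (1 : ℝ) • a)).comp a h1
      rw [ContinuousLinearMap.comp_id] at h2
      exact h2
    have hz := hmin.hasFDerivAt_eq_zero hder
    funext i
    have hi := congrArg (fun L : (Fin m → ℝ) →L[ℝ] ℝ => L (Pi.single i 1)) hz
    have hs : ∀ (p : MvPolynomial (Fin m) ℝ) (x : Fin m → ℝ),
        polyD p x (Pi.single i 1) = eval x (pderiv i p) := by
      intro p x
      rw [polyD_apply, Finset.sum_eq_single i]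
      · rw [Pi.single_eq_same, mul_one]
      · intro j _ hj
        rw [Pi.single_eq_of_ne hj, mul_zero]
      · intro h
        exact absurd (Finset.mem_univ i) h
    have hpq : eval a (pderiv i q) = κ * a i - α i := by
      rw [hq, map_sum, map_sum, Finset.sum_eq_single i]
      · simp only [map_sub, pderiv_mul, pderiv_C, pderiv_pow, pderiv_X_self, map_mul, eval_C, eval_X,
          map_pow, zero_mul, zero_add, mul_one, map_natCast]
        norm_num
        ring
      · intro j _ hj
        simp only [map_sub, pderiv_mul, pderiv_C, pderiv_pow, pderiv_X_of_ne hj,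
          map_zero, zero_mul, zero_add, mul_zero, sub_zero]
      · intro h
        exact absurd (Finset.mem_univ i) h
    simp only [add_apply, sum_apply, hs, hpq, zero_apply] at hi
    unfold Phi grd
    rw [Pi.add_apply, Finset.sum_apply, Pi.smul_apply, zero_add, one_smul, smul_eq_mul]
    linarith
  · have h1 := ha a₀
    have h2 : ∑ l, eval (b l + a₀) (Ψ l) + eval a₀ q ≤ n + 1 / 2 := by
      have h3 : eval a₀ q ≤ 1 / 2 := by
        rw [hqe]
        have h4 : ∀ j : Fin m, κ / 2 * a₀ j ^ 2 - α j * a₀ j ≤ κ / 2 * R ^ 2 + r * R := by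
          intro j
          have h5 : a₀ j ^ 2 ≤ R ^ 2 := by
            rw [← sq_abs (a₀ j)]
            exact pow_le_pow_left₀ (abs_nonneg _) (ha₀ j) 2
          have h6 : -(α j * a₀ j) ≤ r * R := by
            calc -(α j * a₀ j) ≤ |α j * a₀ j| := neg_le_abs _
              _ = |α j| * |a₀ j| := abs_mul _ _
              _ ≤ r * R := mul_le_mul (hα j) (ha₀ j) (abs_nonneg _) hr
          have h7 : κ / 2 * a₀ j ^ 2 ≤ κ / 2 * R ^ 2 :=
            mul_le_mul_of_nonneg_left h5 (by positivity)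
          linarith
        have h8 : ∑ j, (κ / 2 * a₀ j ^ 2 - α j * a₀ j) ≤ ∑ j : Fin m, (κ / 2 * R ^ 2 + r * R) :=
          Finset.sum_le_sum fun j _ => h4 j
        rw [Finset.sum_const, Finset.card_univ, Fintype.card_fin, nsmul_eq_mul] at h8
        refine h8.trans ?_
        have h9 : (m : ℝ) * (κ / 2 * R ^ 2 + r * R) = κ * (m * R ^ 2) / 2 + r * (m * R) := by ring
        rw [h9]
        linarith
      linarith
    have h3 : H a ≤ n + 1 / 2 := by
      refine h1.trans ?_
      rw [hH]
      dsimp only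
      simp only [one_smul]
      exact h2
    have h4 := hlow a
    rw [hH] at h3
    dsimp only at h3
    simp only [one_smul] at h3
    linarith

end Pool.Agent.Helper59.PWA
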