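import Pool.Agent.Helper59.PWA.Crit
import Pool.Agent.Helper59.PWA.Area

/-! # Steps for the sharp polynomial Wolff axioms -/

set_option autoImplicit false

namespace Pool.Agent.Helper59.PWA

open MvPolynomial MeasureTheory Set
open scoped ENNReal

variable {m n : ℕ}

theorem continuous_hess (p : MvPolynomial (Fin m) ℝ) : Continuous (hess p) := by
  refine continuous_matrix fun i j => ?_
  exact MvPolynomial.continuous_eval _

theorem continuous_grd (p : MvPolynomial (Fin m) ℝ) : Continuous (grd p) := by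
  refine continuous_pi fun i => ?_
  exact MvPolynomial.continuous_eval _

/-- weights -/
noncomputable def wgt (t : Fin (m + 1) → ℝ) (k : Fin (m + 1)) : ℝ :=
  |∏ j ∈ Finset.univ.erase k, (t k - t j)|⁻¹

theorem wgt_nonneg (t : Fin (m + 1) → ℝ) (k : Fin (m + 1)) : 0 ≤ wgt t k :=
  inv_nonneg.2 (abs_nonneg _)

noncomputable def Gf (Ψ : Fin n → MvPolynomial (Fin m) ℝ) (t : Fin n → ℝ)
    (z : (Fin m → ℝ) × (Fin m → ℝ)) : ℝ := ∑ l, eval (t l • z.2 + z.1) (Ψ l)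

noncomputable def Af (Ψ : Fin n → MvPolynomial (Fin m) ℝ) (κ : ℝ) (t : Fin n → ℝ)
    (z : (Fin m → ℝ) × (Fin m → ℝ)) : Fin m → ℝ :=
  Phi Ψ κ (fun l => t l • z.2) (fun _ => 1) 0 1 z.1

noncomputable def MAf (Ψ : Fin n → MvPolynomial (Fin m) ℝ) (κ : ℝ) (t : Fin n → ℝ)
    (z : (Fin m → ℝ) × (Fin m → ℝ)) : Matrix (Fin m) (Fin m) ℝ :=
  PhiM Ψ κ (fun l => t l • z.2) (fun _ => 1) 1 z.1

noncomputable def MXf (Ψ : Fin n → MvPolynomial (Fin m) ℝ) (t : Fin n → ℝ)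
    (z : (Fin m → ℝ) × (Fin m → ℝ)) : Matrix (Fin m) (Fin m) ℝ :=
  ∑ l, t l • hess (Ψ l) (t l • z.2 + z.1)

theorem cGf (Ψ : Fin n → MvPolynomial (Fin m) ℝ) (t : Fin n → ℝ) : Continuous (Gf Ψ t) := by
  unfold Gf
  refine continuous_finsetSum _ fun l _ => ?_
  exact (MvPolynomial.continuous_eval (Ψ l)).comp (by fun_prop)

theorem cAf (Ψ : Fin n → MvPolynomial (Fin m) ℝ) (κ : ℝ) (t : Fin n → ℝ) :
    Continuous (Af Ψ κ t) := by
  unfold Af Phi
  refine Continuous.add ?_ (by fun_prop)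
  refine continuous_finsetSum _ fun l _ => ?_
  exact (continuous_grd (Ψ l)).comp (by fun_prop)

theorem cMAf (Ψ : Fin n → MvPolynomial (Fin m) ℝ) (κ : ℝ) (t : Fin n → ℝ) :
    Continuous (MAf Ψ κ t) := by
  unfold MAf PhiM
  refine Continuous.add ?_ continuous_const
  refine continuous_finsetSum _ fun l _ => ?_
  have h : Continuous fun z : (Fin m → ℝ) × (Fin m → ℝ) =>
      hess (Ψ l) (t l • z.2 + (1 : ℝ) • z.1) :=
    (continuous_hess (Ψ l)).comp (by fun_prop)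
  exact h.const_smul (1 : ℝ)

theorem cMXf (Ψ : Fin n → MvPolynomial (Fin m) ℝ) (t : Fin n → ℝ) :
    Continuous (MXf Ψ t) := by
  unfold MXf
  refine continuous_finsetSum _ fun l _ => ?_
  have h : Continuous fun z : (Fin m → ℝ) × (Fin m → ℝ) => hess (Ψ l) (t l • z.2 + z.1) :=
    (continuous_hess (Ψ l)).comp (by fun_prop)
  exact h.const_smul (t l)

theorem pt_eq (s u : ℝ) (P x : Fin m → ℝ) : s • x + (P - u • x) = P + (s - u) • x := by
  rw [sub_smul]
  abel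

theorem Af_shift (Ψ : Fin n → MvPolynomial (Fin m) ℝ) (κ : ℝ) (t : Fin n → ℝ) (u : ℝ)
    (P x : Fin m → ℝ) :
    Af Ψ κ t (P - u • x, x) = Phi Ψ κ (fun _ => P) (fun l => t l - u) P (-u) x := by
  unfold Af Phi
  congr 1
  · refine Finset.sum_congr rfl fun l _ => ?_
    rw [one_smul, pt_eq]
  · rw [zero_add, one_smul, neg_smul, sub_eq_add_neg]

theorem Mf_shift (Ψ : Fin n → MvPolynomial (Fin m) ℝ) (κ : ℝ) (t : Fin n → ℝ) (u : ℝ)
    (P x : Fin m → ℝ) :
    MXf Ψ t (P - u • x, x) - u • MAf Ψ κ t (P - u • x, x) =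
      PhiM Ψ κ (fun _ => P) (fun l => t l - u) (-u) x := by
  have h1 : MXf Ψ t (P - u • x, x) = ∑ l, t l • hess (Ψ l) (P + (t l - u) • x) := by
    unfold MXf
    refine Finset.sum_congr rfl fun l _ => ?_
    rw [pt_eq]
  have h2 : MAf Ψ κ t (P - u • x, x) = ∑ l, hess (Ψ l) (P + (t l - u) • x) + κ • 1 := by
    unfold MAf PhiM
    rw [mul_one]
    congr 1
    refine Finset.sum_congr rfl fun l _ => ?_
    rw [one_smul, one_smul, pt_eq]
  rw [h1, h2]
  unfold PhiM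
  rw [smul_add, Finset.smul_sum]
  have h3 : ∑ l, (t l - u) • hess (Ψ l) (P + (t l - u) • x) =
      ∑ l, t l • hess (Ψ l) (P + (t l - u) • x) - ∑ l, u • hess (Ψ l) (P + (t l - u) • x) := by
    rw [← Finset.sum_sub_distrib]
    refine Finset.sum_congr rfl fun l _ => ?_
    rw [sub_smul]
  have h4 : (κ * -u) • (1 : Matrix (Fin m) (Fin m) ℝ) =
      -(u • κ • (1 : Matrix (Fin m) (Fin m) ℝ)) := by
    rw [smul_smul, ← neg_smul]
    congr 1
    ring
  rw [h3, h4, sub_add_eq_sub_sub, sub_eq_add_neg]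

/-- the parameter set -/
def Uf (Ψ : Fin n → MvPolynomial (Fin m) ℝ) (κ : ℝ) (t : Fin n → ℝ) (c : ℝ)
    (B : Set (Fin m → ℝ)) : Set ((Fin m → ℝ) × (Fin m → ℝ)) :=
  {z | Gf Ψ t z ≤ c ∧ Af Ψ κ t z ∈ B}

theorem mUf (Ψ : Fin n → MvPolynomial (Fin m) ℝ) (κ : ℝ) (t : Fin n → ℝ) (c : ℝ)
    (B : Set (Fin m → ℝ)) (hB : MeasurableSet B) : MeasurableSet (Uf Ψ κ t c B) :=
  (measurableSet_le (cGf Ψ t).measurable measurable_const).inter ((cAf Ψ κ t).measurable hB)

/-- the integrand at infinity -/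
noncomputable def Ff (Ψ : Fin n → MvPolynomial (Fin m) ℝ) (κ : ℝ) (t : Fin n → ℝ) (c : ℝ)
    (B : Set (Fin m → ℝ)) : (Fin m → ℝ) × (Fin m → ℝ) → ℝ≥0∞ :=
  (Uf Ψ κ t c B).indicator fun z => ENNReal.ofReal |(MAf Ψ κ t z).det|

/-- the integrand at time `u` -/
noncomputable def Fu (Ψ : Fin n → MvPolynomial (Fin m) ℝ) (κ : ℝ) (t : Fin n → ℝ) (c : ℝ)
    (B : Set (Fin m → ℝ)) (u : ℝ) : (Fin m → ℝ) × (Fin m → ℝ) → ℝ≥0∞ :=
  (Uf Ψ κ t c B).indicator fun z => ENNReal.ofReal |(MXf Ψ t z - u • MAf Ψ κ t z).det|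

theorem mFf (Ψ : Fin n → MvPolynomial (Fin m) ℝ) (κ : ℝ) (t : Fin n → ℝ) (c : ℝ)
    (B : Set (Fin m → ℝ)) (hB : MeasurableSet B) : Measurable (Ff Ψ κ t c B) :=
  Measurable.indicator ((cMAf Ψ κ t).matrix_det.abs.measurable).ennreal_ofReal
    (mUf Ψ κ t c B hB)

theorem mFu (Ψ : Fin n → MvPolynomial (Fin m) ℝ) (κ : ℝ) (t : Fin n → ℝ) (c : ℝ)
    (B : Set (Fin m → ℝ)) (hB : MeasurableSet B) (u : ℝ) : Measurable (Fu Ψ κ t c B u) :=
  Measurable.indicator
    (((cMXf Ψ t).sub ((cMAf Ψ κ t).const_smul u)).matrix_det.abs.measurable).ennreal_ofReal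
    (mUf Ψ κ t c B hB)

/-- step 2: Lagrange -/
theorem Ff_le (Ψ : Fin (m + 1) → MvPolynomial (Fin m) ℝ) (κ : ℝ) (t : Fin (m + 1) → ℝ)
    (ht : Function.Injective t) (c : ℝ) (B : Set (Fin m → ℝ)) (z : (Fin m → ℝ) × (Fin m → ℝ)) :
    Ff Ψ κ t c B z ≤ ∑ k, ENNReal.ofReal (wgt t k) * Fu Ψ κ t c B (t k) z := by
  by_cases hz : z ∈ Uf Ψ κ t c B
  · have h2 : Ff Ψ κ t c B z = ENNReal.ofReal |(MAf Ψ κ t z).det| := indicator_of_mem hz _
    have h3 : ∀ k, Fu Ψ κ t c B (t k) z =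
        ENNReal.ofReal |(MXf Ψ t z - t k • MAf Ψ κ t z).det| :=
      fun k => indicator_of_mem hz _
    rw [h2]
    simp only [h3]
    have h4 := det_lagrange t ht (MAf Ψ κ t z) (-(MXf Ψ t z))
    have h5 : ∀ k, |(t k • MAf Ψ κ t z + -(MXf Ψ t z)).det| =
        |(MXf Ψ t z - t k • MAf Ψ κ t z).det| := by
      intro k
      have h6 : t k • MAf Ψ κ t z + -(MXf Ψ t z) = -(MXf Ψ t z - t k • MAf Ψ κ t z) := by
        rw [neg_sub, sub_eq_add_neg]
      rw [h6, Matrix.det_neg, abs_mul, abs_pow, abs_neg, abs_one, one_pow, one_mul]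
    simp only [h5] at h4
    have h6 : ∀ k, ENNReal.ofReal (wgt t k) *
        ENNReal.ofReal |(MXf Ψ t z - t k • MAf Ψ κ t z).det| =
        ENNReal.ofReal (wgt t k * |(MXf Ψ t z - t k • MAf Ψ κ t z).det|) :=
      fun k => (ENNReal.ofReal_mul (wgt_nonneg t k)).symm
    simp only [h6]
    rw [← ENNReal.ofReal_sum_of_nonneg]
    · exact ENNReal.ofReal_le_ofReal h4
    · intro k _
      exact mul_nonneg (wgt_nonneg t k) (abs_nonneg _)
  · have h2 : Ff Ψ κ t c B z = 0 := indicator_of_notMem hz _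
    rw [h2]
    exact zero_le

/-- step 3: one time -/
theorem Fu_int (d : ℕ) (hd : 1 ≤ d) (Ψ : Fin n → MvPolynomial (Fin m) ℝ)
    (hΨ : ∀ l, (Ψ l).totalDegree ≤ d + 1) (h0 : ∀ l P, 0 ≤ eval P (Ψ l)) (κ : ℝ)
    (t : Fin n → ℝ) (c : ℝ) (B : Set (Fin m → ℝ)) (hB : MeasurableSet B) (k : Fin n)
    (P : Fin m → ℝ) :
    ∫⁻ x : Fin m → ℝ, Fu Ψ κ t c B (t k) (P - t k • x, x) ≤
      {P : Fin m → ℝ | eval P (Ψ k) ≤ c}.indicator
        (fun _ => ((((m + 1) * d) ^ m : ℕ) : ℝ≥0∞) * volume B) P := by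
  classical
  set VP : Set (Fin m → ℝ) := {x | (P - t k • x, x) ∈ Uf Ψ κ t c B} with hVP
  have hVPm : MeasurableSet VP := by
    have : Measurable (fun x : Fin m → ℝ => (P - t k • x, x)) := by fun_prop
    exact this (mUf Ψ κ t c B hB)
  have h3 : ∫⁻ x : Fin m → ℝ, Fu Ψ κ t c B (t k) (P - t k • x, x) =
      ∫⁻ x in VP, ENNReal.ofReal
        |(mclm (PhiM Ψ κ (fun _ => P) (fun l => t l - t k) (-(t k)) x)).det| := by
    rw [← lintegral_indicator hVPm]
    refine lintegral_congr fun x => ?_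
    by_cases hx : x ∈ VP
    · have h4 : Fu Ψ κ t c B (t k) (P - t k • x, x) = ENNReal.ofReal
          |(MXf Ψ t (P - t k • x, x) - t k • MAf Ψ κ t (P - t k • x, x)).det| :=
        indicator_of_mem (show (P - t k • x, x) ∈ Uf Ψ κ t c B from hx) _
      rw [h4, indicator_of_mem hx, mclm_det, Mf_shift]
    · have h4 : Fu Ψ κ t c B (t k) (P - t k • x, x) = 0 :=
        indicator_of_notMem (show (P - t k • x, x) ∉ Uf Ψ κ t c B from hx) _
      rw [h4, indicator_of_notMem hx]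
  rw [h3]
  by_cases hP : eval P (Ψ k) ≤ c
  · rw [indicator_of_mem (show P ∈ {P : Fin m → ℝ | eval P (Ψ k) ≤ c} from hP)]
    refine area_mult (Phi Ψ κ (fun _ => P) (fun l => t l - t k) P (-(t k)))
      (fun x => mclm (PhiM Ψ κ (fun _ => P) (fun l => t l - t k) (-(t k)) x))
      (fun x => Phi_hasFDerivAt Ψ κ _ _ P (-(t k)) x) ?_ (((m + 1) * d) ^ m) ?_ VP hVPm B hB ?_
    · simp only [mclm_det]
      have cPM : Continuous (fun x : Fin m → ℝ =>
          PhiM Ψ κ (fun _ => P) (fun l => t l - t k) (-(t k)) x) := by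
        unfold PhiM
        refine Continuous.add ?_ continuous_const
        refine continuous_finsetSum _ fun l _ => ?_
        have h : Continuous fun x : Fin m → ℝ => hess (Ψ l) (P + (t l - t k) • x) :=
          (continuous_hess (Ψ l)).comp (by fun_prop)
        exact h.const_smul (t l - t k)
      exact cPM.matrix_det.measurable
    · have h4 := multiplicity hd (PhiP Ψ κ (fun _ => P) (fun l => t l - t k) P (-(t k)))
        (fun i => tdeg_PhiP Ψ κ _ _ P (-(t k)) i d hd hΨ)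
      filter_upwards [h4] with α hα S hS
      refine hα S fun x hx i => ?_
      rw [eval_PhiP, hS x hx]
    · intro x hx
      rw [← Af_shift]
      exact hx.2
  · have h4 : VP = ∅ := by
      rw [eq_empty_iff_forall_notMem]
      intro x hx
      apply hP
      have h5 : Gf Ψ t (P - t k • x, x) ≤ c := hx.1
      refine le_trans ?_ h5
      have h6 : eval (t k • x + (P - t k • x)) (Ψ k) ≤ Gf Ψ t (P - t k • x, x) :=
        Finset.single_le_sum (f := fun l => eval (t l • x + (P - t k • x)) (Ψ l))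
          (fun l _ => h0 l _) (Finset.mem_univ k)
      rwa [add_sub_cancel] at h6
    rw [h4, Measure.restrict_empty, lintegral_zero_measure]
    exact zero_le

end Pool.Agent.Helper59.PWA
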